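import Pool.Agent.Ceg.Final2

/-!
# MP_92512e_an: sharp volume decay of sublevel sets in the Cegrell class `F`

For each `n ≥ 1` there is a constant `C` such that
`Vol {φ < -s} ≤ C δ^(2n) exp (-2ns/λ)` for every bounded hyperconvex domain `D ⊆ ℂⁿ` with
Euclidean diameter `δ`, every `φ ∈ F(D)` with `λⁿ = (dd^c φ)ⁿ(D)`, `λ > 0`, and every `s > 0`.

Proof (new): for a smooth plurisubharmonic function the Gram determinants of the monomials
of degree at most `N` with respect to a weight `exp (-2kψ)`, `ψ` a truncation, are estimated from
above by a local Bergman kernel bound, and from below by products of minimal norms of monic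
polynomials on the sublevel set `K`; the latter are bounded from below in terms of `Vol K`.
Bounded functions are mollified; a comparison theorem for weighted Monge-Ampère masses, proved
with continuous plurisubharmonic weights from an obstacle problem, shows that the masses of the
approximating functions do not exceed the mass of `(dd^c φ)ⁿ`.
-/

set_option autoImplicit false

namespace Pool.Agent.Results.MP_92512e_an.SharpVolumeDecay

open MeasureTheory Pool.Agent.Ceg

/-- Sharp volume decay in the Cegrell class `F(D)`. -/
theorem result (n : ℕ) (hn : 0 < n) : ∃ C : ℝ, ∀ D : Set (Fin n → ℂ), IsHyperconvex D →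
    ∀ (φ : (Fin n → ℂ) → EReal) (ν : Measure (Fin n → ℂ)), IsCegrellFunction D φ ν →
      ∀ lam > 0, ν D = ENNReal.ofReal (lam ^ n) → ∀ s > 0,
        volume {z | z ∈ D ∧ φ z < ((-s : ℝ) : EReal)} ≤
          ENNReal.ofReal (C * euclDiam D ^ (2 * n) * Real.exp (-(2 * n * s / lam))) :=
  final2 n hn

end Pool.Agent.Results.MP_92512e_an.SharpVolumeDecay
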